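import Pool.Agent.Work.MP_46fa68_19.m8_13_5.T

/-! # MP_46fa68_co, full marked kernel m8_13_5: the kernel checks of restriction and target -/

set_option autoImplicit false

set_option maxRecDepth 200000

namespace Pool.JM.MK.m8_13_5

theorem hcl0 : clB 27 cs0 cs1 = true := by decide +kernel

theorem hcl1 : clB 27 cs1 cs2 = true := by decide +kernel

theorem hcl2 : clB 27 cs2 cs3 = true := by decide +kernel

theorem hcl3 : clB 27 cs3 cs4 = true := by decide +kernel

theorem hcl4 : clB 27 cs4 cs5 = true := by decide +kernel

theorem hcl5 : clB 27 cs5 cs6 = true := by decide +kernel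

theorem hcl6 : clB 27 cs6 cs7 = true := by decide +kernel

theorem hcl7 : clB 27 cs7 cs8 = true := by decide +kernel

theorem hcl8 : clB 27 cs8 cs9 = true := by decide +kernel

theorem hcl9 : clB 27 cs9 cs10 = true := by decide +kernel

theorem hcl10 : clB 27 cs10 cs11 = true := by decide +kernel

theorem hcl11 : clB 27 cs11 cs12 = true := by decide +kernel

theorem hcl12 : clB 27 cs12 cs13 = true := by decide +kernel

theorem hcs0 : memB (Nat.sub (Nat.pow 2 14) 1) (cs 0) = true := by decide +kernel

theorem hG0 : allL cs1 (chG 27 tG) = true := by decide +kernel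

theorem hG1 : allL cs2 (chG 27 tG) = true := by decide +kernel

theorem hG2 : allL cs3 (chG 27 tG) = true := by decide +kernel

theorem hG3 : allL cs4 (chG 27 tG) = true := by decide +kernel

theorem hG4 : allL cs5 (chG 27 tG) = true := by decide +kernel

theorem hG5 : allL cs6 (chG 27 tG) = true := by decide +kernel

theorem hG6 : allL cs7 (chG 27 tG) = true := by decide +kernel

theorem hG7 : allL cs8 (chG 27 tG) = true := by decide +kernel

theorem hGz : Nat.beq (Int.natAbs (Int.add (g1 tG (Nat.sub (Nat.pow 2 14) 1) 0)
    (Int.neg (Int.ofNat 1)))) 0 = true := by decide +kernel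

theorem hB7 : allL cs7 (chB 360360 27 8 tB8 tD8 tB7) = true := by decide +kernel

theorem hD7 : allL cs8 (chD 360360 27 8 tB8 tD8 tD7) = true := by decide +kernel

theorem hB8 : allL cs8 (chB 360360 27 9 tB9 tD9 tB8) = true := by decide +kernel

theorem hD8 : allL cs9 (chD 360360 27 9 tB9 tD9 tD8) = true := by decide +kernel

theorem hB9 : allL cs9 (chB 360360 27 10 tB10 tD10 tB9) = true := by decide +kernel

theorem hD9 : allL cs10 (chD 360360 27 10 tB10 tD10 tD9) = true := by decide +kernel

theorem hB10 : allL cs10 (chB 360360 27 11 tB11 tD11 tB10) = true := by decide +kernel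

theorem hD10 : allL cs11 (chD 360360 27 11 tB11 tD11 tD10) = true := by decide +kernel

theorem hB11 : allL cs11 (chB 360360 27 12 tB12 tD12 tB11) = true := by decide +kernel

theorem hD11 : allL cs12 (chD 360360 27 12 tB12 tD12 tD11) = true := by decide +kernel

theorem hTB : allL (cs (6 + 1)) (chTB (2 ^ 32) 360360 27 (6 + 1) 1056767 20 (-10978249661478251634305535342061907) (54819718758561365117982554020939224)
    (tB (6 + 1)) tG tF tH) = true := by decide +kernel

theorem hTD : allL (cs (6 + 2)) (chTD (2 ^ 32) 27 (6 + 2) (tD (6 + 1)) tG tF) = true := by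
  decide +kernel

theorem hd : allL (cs (12 + 1)) (chN 27 (tD 12)) = true := by decide +kernel

theorem hN : ∀ k < 12, (cs k).length ≤ 56 := by
  intro k hk
  interval_cases k <;> decide +kernel

end Pool.JM.MK.m8_13_5
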